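import Mathlib
import Pool.Agent.W91.MulNec
import Pool.Agent.W91.MulReal

set_option autoImplicit false

namespace Pool.Agent.W91.Withdrawn.MultiplicativeSmyth

/-- Condition (A): there is an index `i` with `|b i|` larger than the sum of the other `|b j|`. -/
def CondA {d : ℕ} (b : Fin d → ℤ) : Prop := ∃ i, ∑ j ∈ Finset.univ.erase i, |b j| < |b i|

/-- Condition (B): there are an index `i` and a prime `p` with `p` not dividing `b i` and `p`
dividing `b j` for every `j ≠ i`. -/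
def CondB {d : ℕ} (b : Fin d → ℤ) : Prop :=
  ∃ i, ∃ p : ℕ, p.Prime ∧ ¬ (p : ℤ) ∣ b i ∧ ∀ j, j ≠ i → (p : ℤ) ∣ b j

/-- Condition (B*): there are an index `i`, a prime `p` and an exponent `k` with `p ^ k` not dividing
`b i` and `p ^ k` dividing `b j` for every `j ≠ i`. -/
def CondBstar {d : ℕ} (b : Fin d → ℤ) : Prop :=
  ∃ i, ∃ p : ℕ, p.Prime ∧ ∃ k : ℕ, ¬ (p : ℤ) ^ k ∣ b i ∧ ∀ j, j ≠ i → (p : ℤ) ^ k ∣ b j

/-- `b` is primitive: only units divide all its coordinates. -/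
def Primitive {d : ℕ} (b : Fin d → ℤ) : Prop := ∀ g : ℤ, (∀ i, g ∣ b i) → IsUnit g

/-- The relation `(R_b)` has a solution in which `α` is not a root of unity: `α` is a nonzero
algebraic number, `c i` (`i = 0, ..., d - 1`) are complex roots of the minimal polynomial of `α`
over the rationals (repetitions allowed), `c 0 = α`, the product of the `c i ^ b i` is `1`, and
no positive power of `α` is `1`. -/
def HasSolution {d : ℕ} (b : Fin d → ℤ) : Prop :=
  ∃ (α : ℂ) (c : Fin d → ℂ), IsAlgebraic ℚ α ∧ α ≠ 0 ∧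
    (∀ i, Polynomial.aeval (c i) (minpoly ℚ α) = 0) ∧ (∀ i : Fin d, (i : ℕ) = 0 → c i = α) ∧
    ∏ i, c i ^ b i = 1 ∧ ∀ m : ℕ, 0 < m → α ^ m ≠ 1

lemma hasSolution_of {d : ℕ} (hd : 0 < d) (b : Fin d → ℤ) (hA : ¬ CondA b) (hB : ¬ CondBstar b) :
    HasSolution b := by
  obtain ⟨Ω, hΩ, v, σ, hv, hσ⟩ := Pool.Agent.W91.Mul.perm_int hd b hA hB
  let E : IntermediateField ℚ ℂ := algebraicClosure ℚ ℂ
  have hE0 : IsAlgClosure ℚ E := algebraicClosure.isAlgClosure ℚ ℂ
  have hE1 : IsAlgClosed E := IsAlgClosure.isAlgClosed ℚ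
  have hE2 : Algebra.IsAlgebraic ℚ E := IsAlgClosure.isAlgebraic
  obtain ⟨γ, hγ0, hγ, g, hg⟩ := Pool.Agent.W91.Mul.realize_mul E b Ω v hv σ hσ
  have hint : IsIntegral ℚ γ := Algebra.IsIntegral.isIntegral γ
  have hmin : minpoly ℚ ((g ⟨0, hd⟩ γ : E) : ℂ) = minpoly ℚ γ := by
    rw [← minpoly.algEquiv_eq (g ⟨0, hd⟩) γ]
    exact minpoly.algHom_eq E.val E.val.injective _
  refine ⟨((g ⟨0, hd⟩ γ : E) : ℂ), fun i => ((g i γ : E) : ℂ), ?_, ?_, fun i => ?_, fun i hi => ?_,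
    ?_, fun m hm h => ?_⟩
  · exact (Algebra.IsAlgebraic.isAlgebraic (R := ℚ) (g ⟨0, hd⟩ γ)).algHom E.val
  · intro h
    have h1 : g ⟨0, hd⟩ γ = 0 := Subtype.ext h
    exact hγ0 ((map_eq_zero _).mp h1)
  · rw [hmin]
    have h1 : Polynomial.aeval (g i γ) (minpoly ℚ γ) = 0 := by
      rw [← minpoly.algEquiv_eq (g i) γ]
      exact minpoly.aeval ℚ _
    have h2 := congrArg E.val h1
    rw [map_zero, ← Polynomial.aeval_algHom_apply] at h2
    exact h2
  · have : i = ⟨0, hd⟩ := Fin.ext hi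
    rw [this]
  · have h1 := congrArg E.val hg
    rw [map_prod, map_one] at h1
    rw [← h1]
    refine Finset.prod_congr rfl fun i _ => ?_
    rw [map_zpow₀]
    rfl
  · have h1 : (g ⟨0, hd⟩ γ) ^ m = 1 := by
      apply Subtype.ext
      exact h
    rw [← map_pow, map_eq_one_iff _ (g ⟨0, hd⟩).injective] at h1
    exact hγ m hm h1

lemma nec {d : ℕ} (b : Fin d → ℤ) (h : HasSolution b) : ¬ CondA b ∧ ¬ CondBstar b := by
  obtain ⟨α, c, halg, h0, hc, -, hprod, hm⟩ := h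
  let E : IntermediateField ℚ ℂ := algebraicClosure ℚ ℂ
  have hE0 : IsAlgClosure ℚ E := algebraicClosure.isAlgClosure ℚ ℂ
  have hE1 : IsAlgClosed E := IsAlgClosure.isAlgClosed ℚ
  have hE2 : Algebra.IsAlgebraic ℚ E := IsAlgClosure.isAlgebraic
  have hN : Normal ℚ E := normal_iff.mpr fun x =>
    ⟨Algebra.IsIntegral.isIntegral x, IsAlgClosed.splits _⟩
  have hmem : ∀ x : ℂ, IsAlgebraic ℚ x → x ∈ E := fun x hx => mem_algebraicClosure_iff.mpr hx
  let γ : E := ⟨α, hmem α halg⟩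
  have hγmin : minpoly ℚ γ = minpoly ℚ α := (minpoly.algHom_eq E.val E.val.injective γ).symm
  have hcalg : ∀ i, IsAlgebraic ℚ (c i) := fun i =>
    ⟨minpoly ℚ α, minpoly.ne_zero halg.isIntegral, hc i⟩
  have hg : ∀ i, ∃ g : E ≃ₐ[ℚ] E, (g γ : ℂ) = c i := by
    intro i
    have h1 : minpoly ℚ (⟨c i, hmem _ (hcalg i)⟩ : E) = minpoly ℚ γ := by
      have h2 : minpoly ℚ (c i) = minpoly ℚ (⟨c i, hmem _ (hcalg i)⟩ : E) :=
        minpoly.algHom_eq E.val E.val.injective ⟨c i, hmem _ (hcalg i)⟩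
      rw [hγmin, ← h2]
      symm
      exact minpoly.eq_of_irreducible_of_monic (minpoly.irreducible halg.isIntegral) (hc i)
        (minpoly.monic halg.isIntegral)
    obtain ⟨g, hg⟩ := minpoly.exists_algEquiv_of_root (K := ℚ) (x := γ)
      (y := (⟨c i, hmem _ (hcalg i)⟩ : E))
      (Normal.isIntegral inferInstance _).isAlgebraic (by rw [h1]; exact minpoly.aeval ℚ γ)
    exact ⟨g, by rw [hg]⟩
  choose g hg using hg
  refine Pool.Agent.W91.Mul.nec_mul E b γ ?_ (fun m hm' h => ?_) g ?_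
  · intro h
    exact h0 (congrArg Subtype.val h)
  · exact hm m hm' (by
      have := congrArg Subtype.val h
      exact this)
  · apply Subtype.ext
    have h1 : ((∏ i, (g i γ) ^ b i : E) : ℂ) = ∏ i, ((g i γ : E) : ℂ) ^ b i := by
      show E.val (∏ i, (g i γ) ^ b i) = _
      rw [map_prod]
      exact Finset.prod_congr rfl fun i _ => map_zpow₀ _ _ _
    show ((∏ i, (g i γ) ^ b i : E) : ℂ) = 1
    rw [h1]
    simp only [hg]
    exact hprod

theorem result :
    (∀ (d : ℕ) (b : Fin d → ℤ), 0 < d → Primitive b →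
      (HasSolution b ↔ ¬ CondA b ∧ ¬ CondB b)) ∧
    (∀ (d : ℕ) (b : Fin d → ℤ), 0 < d → (HasSolution b ↔ ¬ CondA b ∧ ¬ CondBstar b)) ∧
    (¬ CondA ![2, 4, 4] ∧ ¬ CondB ![2, 4, 4] ∧ ¬ HasSolution ![2, 4, 4]) := by
  have key : ∀ (d : ℕ) (b : Fin d → ℤ), 0 < d → (HasSolution b ↔ ¬ CondA b ∧ ¬ CondBstar b) :=
    fun d b hd => ⟨nec b, fun h => hasSolution_of hd b h.1 h.2⟩
  refine ⟨fun d b hd hb => ?_, key, ?_, ?_, ?_⟩
  · rw [key d b hd]
    refine and_congr_right fun _ => not_congr ⟨?_, ?_⟩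
    · rintro ⟨i, p, hp, k, hk, hj⟩
      have hk0 : k ≠ 0 := by
        rintro rfl
        exact hk (by simp)
      refine ⟨i, p, hp, fun hpi => ?_, fun j hji => (dvd_pow_self _ hk0).trans (hj j hji)⟩
      have h1 : IsUnit (p : ℤ) := hb p fun j => by
        by_cases hji : j = i
        · rw [hji]; exact hpi
        · exact (dvd_pow_self _ hk0).trans (hj j hji)
      exact (Nat.prime_iff_prime_int.mp hp).not_isUnit h1
    · rintro ⟨i, p, hp, hi, hj⟩
      exact ⟨i, p, hp, 1, by simpa using hi, by simpa using hj⟩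
  · rintro ⟨i, hi⟩
    revert hi
    fin_cases i <;> decide
  · rintro ⟨i, p, hp, hi, hj⟩
    fin_cases i
    · have h1 : (p : ℤ) ∣ 4 := by simpa using hj 1 (by decide)
      have h2 : ¬ (p : ℤ) ∣ 2 := by simpa using hi
      have h3 : (p : ℤ) ∣ 2 * 2 := by simpa using h1
      rcases (Nat.prime_iff_prime_int.mp hp).dvd_or_dvd h3 with h | h <;> exact h2 h
    · have h1 : (p : ℤ) ∣ 2 := by simpa using hj 0 (by decide)
      have h2 : ¬ (p : ℤ) ∣ 4 := by simpa using hi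
      exact h2 (h1.trans ⟨2, by norm_num⟩)
    · have h1 : (p : ℤ) ∣ 2 := by simpa using hj 0 (by decide)
      have h2 : ¬ (p : ℤ) ∣ 4 := by simpa using hi
      exact h2 (h1.trans ⟨2, by norm_num⟩)
  · rw [key 3 _ (by norm_num)]
    rintro ⟨-, h⟩
    apply h
    refine ⟨0, 2, Nat.prime_two, 2, by decide, fun j hj => ?_⟩
    fin_cases j
    · exact absurd rfl hj
    · simp
    · simp

end Pool.Agent.W91.Withdrawn.MultiplicativeSmyth
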